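import Pool.Agent.H717.PM.Stm

/-!
Small natural certificates for the OR and the AND problem, from the lemma on small integer points
with prescribed signs.
-/

set_option autoImplicit false

namespace Pool.Agent.H876.PM

open Pool.Agent.H717.PM

/-- Small natural numbers with the same comparisons of sums of two coordinates. -/
lemma core (h : S_small) (ι : Type) [Fintype ι] (x : ι → ℝ) (hx : ∀ j, 0 ≤ x j) :
    ∃ Y : ι → ℕ, (∀ j, Y j ≤ (Fintype.card ι).factorial * 3 ^ Fintype.card ι) ∧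
      (∀ j, Y j = 0 ↔ x j = 0) ∧
      ∀ a b c d, (Y a + Y b ≤ Y c + Y d ↔ x a + x b ≤ x c + x d) := by
  classical
  obtain ⟨y, hy1, hy2, hy3⟩ := h ι 2 (Fintype.piFinset fun _ => Finset.Icc (-2 : ℤ) 2) (by
    intro f hf j
    have := (Fintype.mem_piFinset.1 hf) j
    rw [Finset.mem_Icc] at this
    rw [abs_le]
    exact_mod_cast this) x
  have hpos : ∀ j, 0 ≤ y j := by
    intro j
    have h1 := hy2 j
    by_contra hc
    push Not at hc
    rw [sign_neg hc] at h1
    rcases (hx j).lt_or_eq with h2 | h2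
    · rw [sign_pos h2] at h1; exact absurd h1 (by decide)
    · rw [← h2, sign_zero] at h1; exact absurd h1 (by decide)
  have hzero : ∀ j, y j = 0 ↔ x j = 0 := by
    intro j
    rw [← sign_eq_zero_iff, hy2 j, sign_eq_zero_iff]
  have hsum : ∀ a b c d, (y a + y b ≤ y c + y d ↔ x a + x b ≤ x c + x d) := by
    intro a b c d
    have h1 := hy3 (Pi.single a 1 + Pi.single b 1 - Pi.single c 1 - Pi.single d 1) (by
      rw [Fintype.mem_piFinset]
      intro j
      rw [Finset.mem_Icc]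
      simp only [Pi.sub_apply, Pi.add_apply, Pi.single_apply]
      split_ifs <;> simp)
    have e1 : ∑ j, (Pi.single a 1 + Pi.single b 1 - Pi.single c 1 - Pi.single d 1 : ι → ℤ) j * y j
        = y a + y b - y c - y d := by
      simp [Pi.single_apply, add_mul, sub_mul, Finset.sum_add_distrib, Finset.sum_sub_distrib]
    have e2 : ∑ j, (((Pi.single a 1 + Pi.single b 1 - Pi.single c 1 - Pi.single d 1 : ι → ℤ) j : ℤ) : ℝ)
          * x j = x a + x b - x c - x d := by
      simp [Pi.single_apply, add_mul, sub_mul, Finset.sum_add_distrib, Finset.sum_sub_distrib]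
    rw [e1, e2] at h1
    have h2 : (0 < y a + y b - y c - y d) ↔ (0 < x a + x b - x c - x d) := by
      rw [← sign_eq_one_iff, h1, sign_eq_one_iff]
    constructor
    · intro h3
      by_contra hc
      have : 0 < y a + y b - y c - y d := h2.2 (by linarith)
      linarith
    · intro h3
      by_contra hc
      have : 0 < x a + x b - x c - x d := h2.1 (by linarith)
      linarith
  refine ⟨fun j => (y j).toNat, ?_, ?_, ?_⟩
  · intro j
    have h1 := hy1 j
    rw [abs_of_nonneg (hpos j)] at h1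
    have h2 : (2 + 1 : ℕ) = 3 := rfl
    rw [h2] at h1
    exact Int.toNat_le.2 h1
  · intro j
    rw [← hzero j]
    have := hpos j
    show (y j).toNat = 0 ↔ y j = 0
    omega
  · intro a b c d
    rw [← hsum a b c d]
    have h1 := hpos a
    have h2 := hpos b
    have h3 := hpos c
    have h4 := hpos d
    show (y a).toNat + (y b).toNat ≤ (y c).toNat + (y d).toNat ↔ _
    omega

/-- The common part of the two statements: several distance functions and intervals. -/
lemma core2 (h : S_small) (n k : ℕ) (D : ℕ → ℕ → ℕ → ℝ) (lo hi : ℕ → ℝ)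
    (hTM : ∀ i < k, TM n (D i)) (hI : ∀ i < k, 0 ≤ lo i ∧ 0 ≤ hi i) :
    ∃ (D' : ℕ → ℕ → ℕ → ℕ) (lo' hi' : ℕ → ℕ),
      (∀ i < k, TM n (fun x y => (D' i x y : ℝ))) ∧
      (∀ i < k, ∀ x < n, ∀ y < n,
        (((lo' i : ℝ) ≤ (D' i x y : ℝ) ∧ (D' i x y : ℝ) ≤ (hi' i : ℝ)) ↔
          (lo i ≤ D i x y ∧ D i x y ≤ hi i))) ∧
      ∀ i, lo' i ≤ bnd n k ∧ hi' i ≤ bnd n k ∧ ∀ x y, D' i x y ≤ bnd n k := by
  classical
  let ι := Fin k × ((Fin n × Fin n) ⊕ Bool)
  let X : ι → ℝ := fun j => match j.2 with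
    | Sum.inl p => D j.1 p.1 p.2
    | Sum.inr false => lo j.1
    | Sum.inr true => hi j.1
  have hX : ∀ j, 0 ≤ X j := by
    rintro ⟨i, (⟨x, y⟩ | b)⟩
    · exact (hTM i i.2).nonneg x x.2 y y.2
    · cases b
      · exact (hI i i.2).1
      · exact (hI i i.2).2
  obtain ⟨Y, hY1, hY2, hY3⟩ := core h ι X hX
  have hcard : Fintype.card ι = k * (n * n + 2) := by
    simp [ι]
  rw [hcard] at hY1
  have hY4 : ∀ a b, (Y a ≤ Y b ↔ X a ≤ X b) := by
    intro a b
    have := hY3 a a b b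
    constructor
    · intro h1
      have := this.1 (by omega)
      linarith
    · intro h1
      have := this.2 (by linarith)
      omega
  have hY5 : ∀ a b, X a = X b → Y a = Y b := by
    intro a b hab
    exact le_antisymm ((hY4 a b).2 hab.le) ((hY4 b a).2 hab.ge)
  refine ⟨fun i x y => if hh : i < k ∧ x < n ∧ y < n then
      Y (⟨i, hh.1⟩, Sum.inl (⟨x, hh.2.1⟩, ⟨y, hh.2.2⟩)) else 0,
    fun i => if hh : i < k then Y (⟨i, hh⟩, Sum.inr false) else 0,
    fun i => if hh : i < k then Y (⟨i, hh⟩, Sum.inr true) else 0, ?_, ?_, ?_⟩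
  · intro i hik
    constructor
    · intro x hx y hy
      simp only [hik, hx, hy, and_self, dif_pos]
      exact_mod_cast hY5 (⟨i, hik⟩, Sum.inl (⟨x, hx⟩, ⟨y, hy⟩)) (⟨i, hik⟩, Sum.inl (⟨y, hy⟩, ⟨x, hx⟩))
        ((hTM i hik).symm x hx y hy)
    · intro x hx
      simp only [hik, hx, and_self, dif_pos]
      exact_mod_cast (hY2 (⟨i, hik⟩, Sum.inl (⟨x, hx⟩, ⟨x, hx⟩))).2 ((hTM i hik).diag x hx)
    · intro x hx y hy
      positivity
    · intro x hx y hy z hz w hw
      simp only [hik, hx, hy, hz, hw, and_self, dif_pos]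
      rcases (hTM i hik).four x hx y hy z hz w hw with h1 | h1
      · left
        exact_mod_cast (hY3 (⟨i, hik⟩, Sum.inl (⟨x, hx⟩, ⟨y, hy⟩))
          (⟨i, hik⟩, Sum.inl (⟨z, hz⟩, ⟨w, hw⟩)) (⟨i, hik⟩, Sum.inl (⟨x, hx⟩, ⟨z, hz⟩))
          (⟨i, hik⟩, Sum.inl (⟨y, hy⟩, ⟨w, hw⟩))).2 h1
      · right
        exact_mod_cast (hY3 (⟨i, hik⟩, Sum.inl (⟨x, hx⟩, ⟨y, hy⟩))
          (⟨i, hik⟩, Sum.inl (⟨z, hz⟩, ⟨w, hw⟩)) (⟨i, hik⟩, Sum.inl (⟨x, hx⟩, ⟨w, hw⟩))
          (⟨i, hik⟩, Sum.inl (⟨y, hy⟩, ⟨z, hz⟩))).2 h1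
  · intro i hik x hx y hy
    simp only [hik, hx, hy, and_self, dif_pos]
    rw [Nat.cast_le, Nat.cast_le, hY4, hY4]
  · intro i
    have hb : ∀ j, Y j ≤ bnd n k := hY1
    refine ⟨?_, ?_, ?_⟩
    · dsimp only
      split_ifs
      · exact hb _
      · exact Nat.zero_le _
    · dsimp only
      split_ifs
      · exact hb _
      · exact Nat.zero_le _
    · intro x y
      dsimp only
      split_ifs
      · exact hb _
      · exact Nat.zero_le _

theorem t_natOr (h : S_small) : S_natOr := by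
  intro M k D lo hi hR
  obtain ⟨D', lo', hi', h1, h2, h3⟩ := core2 h M.length k D lo hi hR.1 hR.2.1
  refine ⟨D', lo', hi', ⟨h1, fun i _ => ⟨by positivity, by positivity⟩, ?_⟩, h3⟩
  intro x hx y hy hxy
  rw [hR.2.2 x hx y hy hxy]
  constructor
  · rintro ⟨i, hi1, hi2⟩
    exact ⟨i, hi1, (h2 i hi1 x hx y hy).2 hi2⟩
  · rintro ⟨i, hi1, hi2⟩
    exact ⟨i, hi1, (h2 i hi1 x hx y hy).1 hi2⟩

theorem t_natAnd (h : S_small) : S_natAnd := by
  intro M k D lo hi hR
  obtain ⟨D', lo', hi', h1, h2, h3⟩ := core2 h M.length k D lo hi hR.1 hR.2.1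
  refine ⟨D', lo', hi', ⟨h1, fun i _ => ⟨by positivity, by positivity⟩, ?_⟩, h3⟩
  intro x hx y hy hxy
  rw [hR.2.2 x hx y hy hxy]
  constructor
  · intro hh i hi1
    exact (h2 i hi1 x hx y hy).2 (hh i hi1)
  · intro hh i hi1
    exact (h2 i hi1 x hx y hy).1 (hh i hi1)

end Pool.Agent.H876.PM
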